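import Pool.Agent.Helper73.RF.GoalsA

/-!
Packet RF BIA (MP_c98eff_gt): pointwise consequences of the Bianchi identity.
-/

set_option autoImplicit false

open Finset

namespace Pool.Agent.Helper55.RF

open Pool.Agent.Helper73.RF

lemma cs1 (u v : Fin 3 → ℝ) :
    (∑ i, u i * v i) ^ 2 ≤ (∑ i, u i ^ 2) * (∑ i, v i ^ 2) :=
  Finset.sum_mul_sq_le_sq_mul_sq univ u v

lemma cs2 (u v : Fin 3 → Fin 3 → ℝ) :
    (∑ i, ∑ j, u i j * v i j) ^ 2 ≤ (∑ i, ∑ j, u i j ^ 2) * (∑ i, ∑ j, v i j ^ 2) := by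
  have h := Finset.sum_mul_sq_le_sq_mul_sq (univ : Finset (Fin 3 × Fin 3))
    (fun p => u p.1 p.2) (fun p => v p.1 p.2)
  simpa only [Fintype.sum_prod_type] using h

lemma cs3 (u v : Fin 3 → Fin 3 → Fin 3 → ℝ) :
    (∑ a, ∑ i, ∑ j, u a i j * v a i j) ^ 2
      ≤ (∑ a, ∑ i, ∑ j, u a i j ^ 2) * (∑ a, ∑ i, ∑ j, v a i j ^ 2) := by
  have h := Finset.sum_mul_sq_le_sq_mul_sq (univ : Finset (Fin 3 × Fin 3 × Fin 3))
    (fun p => u p.1 p.2.1 p.2.2) (fun p => v p.1 p.2.1 p.2.2)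
  simpa only [Fintype.sum_prod_type] using h

section

variable {T : ℝ} (F : FBD T) (z : F.Z) (t : TI T)

lemma ev_gg (f g : F.B) :
    F.ev z t (F.gg f g) = ∑ a, F.ev z t (F.H a f) * F.ev z t (F.H a g) := by
  simp only [FBD.gg, map_sum, map_mul]

lemma ev_Hs (a : Fin 3) : F.ev z t (F.H a F.s) = ∑ i, F.ev z t (F.H a (F.M i i)) := by
  simp only [FBD.s, map_sum]

lemma ev_s : F.ev z t F.s = ∑ i, F.ev z t (F.M i i) := by
  simp only [FBD.s, map_sum]

lemma ev_n2 : F.ev z t F.n2 = ∑ i, ∑ j, F.ev z t (F.M i j) ^ 2 := by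
  simp only [FBD.n2, map_sum, map_pow]

lemma ev_dM : F.ev z t F.dM = ∑ c, ∑ i, ∑ j, F.ev z t (F.H c (F.M i j)) ^ 2 := by
  simp only [FBD.dM, map_sum, map_pow]

lemma ev_HM0 (c i j : Fin 3) : F.ev z t (F.H c (F.M0 i j)) =
    F.ev z t (F.H c (F.M i j)) - if i = j then (1 / 3) * F.ev z t (F.H c F.s) else 0 := by
  unfold FBD.M0
  split_ifs with h
  · rw [map_sub, Derivation.map_smul, map_sub, map_smul, smul_eq_mul]
  · simp

lemma ev_M0 (i j : Fin 3) : F.ev z t (F.M0 i j) =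
    F.ev z t (F.M i j) - if i = j then (1 / 3) * F.ev z t F.s else 0 := by
  unfold FBD.M0
  split_ifs with h
  · simp only [map_sub, map_smul, smul_eq_mul]
  · simp

lemma ev_dM0 : F.ev z t F.dM0 = ∑ c, ∑ i, ∑ j, F.ev z t (F.H c (F.M0 i j)) ^ 2 := by
  simp only [FBD.dM0, map_sum, map_pow]

lemma ev_q : F.ev z t F.q = ∑ i, ∑ j, F.ev z t (F.M0 i j) ^ 2 := by
  simp only [ev_M0]
  simp only [FBD.q, map_sub, map_smul, map_pow, smul_eq_mul, ev_n2, ev_s]
  simp only [Fin.sum_univ_three]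
  simp
  ring

lemma ev_Hq (a : Fin 3) : F.ev z t (F.H a F.q) =
    2 * ∑ i, ∑ j, F.ev z t (F.M0 i j) * F.ev z t (F.H a (F.M0 i j)) := by
  have h1 : F.ev z t (F.H a F.q) = (∑ i, ∑ j, 2 * F.ev z t (F.M i j) * F.ev z t (F.H a (F.M i j)))
      - (1 / 3) * (2 * F.ev z t F.s * F.ev z t (F.H a F.s)) := by
    simp only [FBD.q, FBD.n2, map_sub, map_sum, Derivation.map_smul, map_smul, smul_eq_mul,
      Derivation.leibniz_pow, map_mul, map_pow, nsmul_eq_mul]
    simp
    simp only [mul_assoc, map_ofNat]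
  rw [h1]
  simp only [ev_M0, ev_HM0]
  simp only [ev_s, ev_Hs, Fin.sum_univ_three]
  simp
  ring

lemma ev_h2 (f : F.B) : F.ev z t (F.h2 f) = ∑ a, ∑ b, F.ev z t (F.H a (F.H b f)) ^ 2 := by
  simp only [FBD.h2, map_sum, map_pow]

lemma ev_Ric (i j : Fin 3) : F.ev z t (F.Ric i j) =
    (if i = j then F.ev z t F.s else 0) - F.ev z t (F.M i j) := by
  unfold FBD.Ric
  split_ifs with h
  · simp only [map_sub]
  · simp

end

theorem bia : BiaStmt := by
  intro T F hF _ z t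
  have hgs : F.ev z t (F.gg F.s F.s) = ∑ a, F.ev z t (F.H a F.s) ^ 2 := by
    rw [ev_gg]; simp only [sq]
  have hb : ∀ j, ∑ i, F.ev z t (F.H i (F.M i j)) = 0 := by
    intro j
    have := congrArg (F.ev z t) (hF.bianchi j)
    simpa only [map_sum, map_zero] using this
  have hdM0 : 0 ≤ F.ev z t F.dM0 := by
    rw [ev_dM0]
    exact sum_nonneg fun _ _ => sum_nonneg fun _ _ => sum_nonneg fun _ _ => sq_nonneg _
  have hdM : 0 ≤ F.ev z t F.dM := by
    rw [ev_dM]
    exact sum_nonneg fun _ _ => sum_nonneg fun _ _ => sum_nonneg fun _ _ => sq_nonneg _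
  have hq : 0 ≤ F.ev z t F.q := by
    rw [ev_q]
    exact sum_nonneg fun _ _ => sum_nonneg fun _ _ => sq_nonneg _
  have h1 : F.ev z t (F.gg F.s F.s) ≤ 27 * F.ev z t F.dM0 := by
    rw [hgs, ev_dM0]
    have h2 : ∀ j, F.ev z t (F.H j F.s) ^ 2 ≤ 27 * ∑ i, F.ev z t (F.H i (F.M0 i j)) ^ 2 := by
      intro j
      have h3 : F.ev z t (F.H j F.s) = -3 * ∑ i, F.ev z t (F.H i (F.M0 i j)) := by
        simp only [ev_HM0, sum_sub_distrib, hb j]
        simp
      have h4 := cs1 (fun _ => 1) (fun i => F.ev z t (F.H i (F.M0 i j)))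
      simp only [one_mul, one_pow, sum_const, card_univ, Fintype.card_fin, nsmul_eq_mul,
        Nat.cast_ofNat, mul_one] at h4
      rw [h3]
      nlinarith [h4]
    calc ∑ a, F.ev z t (F.H a F.s) ^ 2
        ≤ ∑ j, 27 * ∑ i, F.ev z t (F.H i (F.M0 i j)) ^ 2 := sum_le_sum fun j _ => h2 j
      _ = 27 * ∑ i, ∑ j, F.ev z t (F.H i (F.M0 i j)) ^ 2 := by rw [← mul_sum, sum_comm]
      _ ≤ 27 * ∑ c, ∑ i, ∑ j, F.ev z t (F.H c (F.M0 i j)) ^ 2 := by
        apply mul_le_mul_of_nonneg_left _ (by norm_num)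
        apply sum_le_sum
        intro c _
        exact single_le_sum (f := fun i => ∑ j, F.ev z t (F.H c (F.M0 i j)) ^ 2)
          (fun i _ => sum_nonneg fun _ _ => sq_nonneg _) (mem_univ c)
  have h2 : F.ev z t F.dM = F.ev z t F.dM0 + (1 / 3) * F.ev z t (F.gg F.s F.s) := by
    rw [hgs, ev_dM0, ev_dM]
    simp only [ev_HM0]
    simp only [ev_Hs, Fin.sum_univ_three]
    simp
    ring
  refine ⟨h1, by linarith, ?_, hdM0, hdM, hq, ?_, ?_, ?_⟩
  · rw [ev_gg, ev_dM0, ev_q, mul_sum]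
    apply sum_le_sum
    intro a _
    have h3 := cs2 (fun i j => F.ev z t (F.M0 i j)) (fun i j => F.ev z t (F.H a (F.M0 i j)))
    rw [ev_Hq]
    nlinarith [h3]
  · have h3 := cs3 (fun a i j => F.ev z t (F.H a F.s) * F.ev z t (F.M i j))
      (fun a i j => F.ev z t (F.H a (F.M i j)))
    simp only [map_sum, map_mul]
    refine h3.trans (le_of_eq ?_)
    rw [hgs, ev_n2, ev_dM]
    congr 1
    simp only [mul_pow]
    rw [sum_mul]
    apply sum_congr rfl
    intro a _
    rw [mul_sum]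
    apply sum_congr rfl
    intro i _
    rw [mul_sum]
  · intro f g
    rw [ev_gg, ev_gg, ev_gg]
    have h3 := cs1 (fun a => F.ev z t (F.H a f)) (fun a => F.ev z t (F.H a g))
    simpa only [sq] using h3
  · intro f
    have hh2 : 0 ≤ F.ev z t (F.h2 f) := by
      rw [ev_h2]
      exact sum_nonneg fun _ _ => sum_nonneg fun _ _ => sq_nonneg _
    have hgf : F.ev z t (F.gg f f) = ∑ a, F.ev z t (F.H a f) ^ 2 := by
      rw [ev_gg]; simp only [sq]
    refine ⟨?_, hh2, ?_, ?_, ?_⟩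
    · rw [hgf]; exact sum_nonneg fun _ _ => sq_nonneg _
    · have h3 : F.ev z t (F.gg (F.gg f f) f) =
          2 * ∑ a, ∑ b, (F.ev z t (F.H a f) * F.ev z t (F.H b f)) * F.ev z t (F.H a (F.H b f)) := by
        rw [ev_gg]
        simp only [FBD.gg, map_sum, Derivation.leibniz, smul_eq_mul, map_add, map_mul]
        rw [mul_sum]
        apply sum_congr rfl
        intro a _
        rw [mul_sum, sum_mul]
        apply sum_congr rfl
        intro b _
        ring
      have h4 := cs2 (fun a b => F.ev z t (F.H a f) * F.ev z t (F.H b f))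
        (fun a b => F.ev z t (F.H a (F.H b f)))
      have h5 : ∑ a, ∑ b, (F.ev z t (F.H a f) * F.ev z t (F.H b f)) ^ 2
          = F.ev z t (F.gg f f) ^ 2 := by
        rw [hgf, sq (∑ a, F.ev z t (F.H a f) ^ 2), sum_mul]
        apply sum_congr rfl
        intro a _
        rw [mul_sum]
        apply sum_congr rfl
        intro b _
        ring
      rw [h3, ev_h2]
      simp only [h5] at h4
      nlinarith [h4]
    · have h3 : F.ev z t (F.Lap f) = ∑ a, F.ev z t (F.H a (F.H a f)) := by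
        simp only [FBD.Lap, map_sum]
      have h4 := cs1 (fun _ => 1) (fun a => F.ev z t (F.H a (F.H a f)))
      simp only [one_mul, one_pow, sum_const, card_univ, Fintype.card_fin, nsmul_eq_mul,
        Nat.cast_ofNat, mul_one] at h4
      rw [h3, ev_h2]
      refine h4.trans ?_
      apply mul_le_mul_of_nonneg_left _ (by norm_num)
      apply sum_le_sum
      intro a _
      exact single_le_sum (f := fun b => F.ev z t (F.H a (F.H b f)) ^ 2)
        (fun b _ => sq_nonneg _) (mem_univ a)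
    · have h4 := cs2 (fun a b => F.ev z t (F.Ric a b)) (fun a b => F.ev z t (F.H a (F.H b f)))
      simp only [map_sum, map_mul]
      refine h4.trans (le_of_eq ?_)
      rw [ev_h2]
      congr 1
      simp only [ev_Ric]
      simp only [ev_s, ev_n2, Fin.sum_univ_three]
      simp
      ring

end Pool.Agent.Helper55.RF
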