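import Pool.Agent.Helper64.RF.GoalsF

/-!
Packet RF HALF (MP_c98eff_gt): half of the ball is outside of a thin cone.
-/

open Quaternion MeasureTheory

namespace Pool.Agent.Helper55.RF

open Pool.Agent.Helper64.RF

theorem half : HALF := by
  intro δ y0 hδ0 hδ1 hy0
  set S : Set ℍ[ℝ] := {y : ℍ[ℝ] | y ∈ Metric.ball (0 : ℍ[ℝ]) 1 ∧ y ≠ 0 ∧ δ < ‖‖y‖⁻¹ • y - y0‖}
    with hS
  have hcov : Metric.ball (0 : ℍ[ℝ]) 1 ⊆ (S ∪ (Neg.neg ⁻¹' S)) ∪ {0} := by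
    intro y hy
    by_cases h0 : y = 0
    · right; exact h0
    left
    by_cases h1 : δ < ‖‖y‖⁻¹ • y - y0‖
    · left; exact ⟨hy, h0, h1⟩
    · right
      rw [not_lt] at h1
      refine ⟨?_, neg_ne_zero.mpr h0, ?_⟩
      · simpa using hy
      · rw [norm_neg]
        have e1 : ‖y‖⁻¹ • (-y) - y0 = -((‖y‖⁻¹ • y - y0) + (2:ℝ) • y0) := by
          rw [two_smul, smul_neg]; abel
        rw [e1, norm_neg]
        have e2 : ‖(2:ℝ) • y0‖ = 2 := by rw [norm_smul, hy0]; norm_num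
        have e3 : ‖(2:ℝ) • y0‖ ≤ ‖(‖y‖⁻¹ • y - y0) + (2:ℝ) • y0‖ + ‖‖y‖⁻¹ • y - y0‖ := by
          have h2 := norm_sub_le ((‖y‖⁻¹ • y - y0) + (2:ℝ) • y0) (‖y‖⁻¹ • y - y0)
          rwa [add_sub_cancel_left] at h2
        linarith
  have hneg : volume (Neg.neg ⁻¹' S) = volume S := Measure.measure_preimage_neg volume S
  calc volume (Metric.ball (0 : ℍ[ℝ]) 1) ≤ volume ((S ∪ (Neg.neg ⁻¹' S)) ∪ {0}) :=
        measure_mono hcov
    _ ≤ volume (S ∪ (Neg.neg ⁻¹' S)) + volume ({0} : Set ℍ[ℝ]) := measure_union_le _ _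
    _ ≤ (volume S + volume (Neg.neg ⁻¹' S)) + volume ({0} : Set ℍ[ℝ]) := by
        gcongr
        exact measure_union_le _ _
    _ = 2 * volume S := by
        rw [hneg, measure_singleton, add_zero, two_mul]

end Pool.Agent.Helper55.RF
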