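import Pool.Agent.Helper73.RF.GoalsF

/-!
Packet RF LIP (MP_c98eff_gt): Lipschitz functions and the distance.
-/

set_option autoImplicit false

open Finset Pool.Agent.Helper47.RF Pool.Agent.Helper73.RF MeasureTheory

namespace Pool.Agent.Helper55.RF

/-! ### Cauchy-Schwarz for a metric -/

lemma ip_pos {g : MF} (hg : IsMetric g) (x : HH) {v : Fin 3 → ℝ} (hv : v ≠ 0) : 0 < ip g x v v := by
  have h := (hg.pos x).dotProduct_mulVec_pos hv
  have e : star v ⬝ᵥ (g x).mulVec v = ip g x v v := by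
    unfold ip dotProduct Matrix.mulVec dotProduct
    apply sum_congr rfl
    intro i _
    rw [mul_sum]
    apply sum_congr rfl
    intro j _
    simp only [Pi.star_apply, star_trivial]
    ring
  rwa [e] at h

lemma ip_nonneg {g : MF} (hg : IsMetric g) (x : HH) (v : Fin 3 → ℝ) : 0 ≤ ip g x v v := by
  by_cases hv : v = 0
  · rw [hv]; simp [ip]
  · exact (ip_pos hg x hv).le

lemma ip_symm {g : MF} (hg : IsMetric g) (x : HH) (u v : Fin 3 → ℝ) : ip g x u v = ip g x v u := by
  have hs : ∀ i j, g x i j = g x j i := by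
    intro i j
    have := (hg.pos x).isHermitian.apply j i
    simpa using this
  unfold ip
  rw [sum_comm]
  apply sum_congr rfl
  intro i _
  apply sum_congr rfl
  intro j _
  rw [hs j i]; ring

lemma ip_cs {g : MF} (hg : IsMetric g) (x : HH) (u v : Fin 3 → ℝ) :
    ip g x u v ^ 2 ≤ ip g x u u * ip g x v v := by
  have h1 := ip_nonneg hg x (fun i => ip g x v v * u i - ip g x u v * v i)
  have h2 : ip g x (fun i => ip g x v v * u i - ip g x u v * v i)
      (fun i => ip g x v v * u i - ip g x u v * v i)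
      = ip g x v v * (ip g x u u * ip g x v v - ip g x u v ^ 2) := by
    have e : ∀ a b : ℝ, ip g x (fun i => a * u i - b * v i) (fun i => a * u i - b * v i)
        = a ^ 2 * ip g x u u - a * b * ip g x u v - a * b * ip g x v u + b ^ 2 * ip g x v v := by
      intro a b
      unfold ip
      simp only [Fin.sum_univ_three]
      ring
    rw [e, ip_symm hg x v u]
    ring
  rw [h2] at h1
  by_cases hv : v = 0
  · rw [hv]; simp [ip]
  · have := ip_pos hg x hv
    have h3 := (mul_nonneg_iff_of_pos_left this).mp h1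
    linarith

/-- pairing of a covector with a vector -/
lemma pair_cs {g : MF} (h6 : Goal_C6) (hg : IsMetric g) (x : HH) (a v : Fin 3 → ℝ) :
    (∑ i, v i * a i) ^ 2 ≤ (∑ i, ∑ j, (g x)⁻¹ i j * a i * a j) * ip g x v v := by
  obtain ⟨-, -, -, -, hmul, hsym, -⟩ := h6 g hg
  set b : Fin 3 → ℝ := fun i => ∑ j, (g x)⁻¹ i j * a j with hb
  have hgb : ∀ i, ∑ j, g x i j * b j = a i := by
    intro i
    have h1 : ∑ j, g x i j * b j = ∑ k, (g x * (g x)⁻¹) i k * a k := by
      simp only [hb, Matrix.mul_apply, mul_sum, sum_mul]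
      rw [sum_comm]
      apply sum_congr rfl
      intro k _
      apply sum_congr rfl
      intro j _
      ring
    rw [h1, hmul x]
    simp [Matrix.one_apply]
  have h1 : ip g x v b = ∑ i, v i * a i := by
    unfold ip
    apply sum_congr rfl
    intro i _
    rw [← hgb i, mul_sum]
    apply sum_congr rfl
    intro j _
    ring
  have h2 : ip g x b b = ∑ i, ∑ j, (g x)⁻¹ i j * a i * a j := by
    have h3 : ip g x b b = ∑ i, b i * a i := by
      unfold ip
      apply sum_congr rfl
      intro i _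
      rw [← hgb i, mul_sum]
      apply sum_congr rfl
      intro j _
      ring
    rw [h3]
    apply sum_congr rfl
    intro i _
    simp only [hb, sum_mul]
    apply sum_congr rfl
    intro j _
    ring
  have h3 := ip_cs hg x v b
  rw [h1, h2] at h3
  linarith

/-! ### Great circles -/

lemma one_parts : (1 : HH).re = 1 ∧ (1 : HH).imI = 0 ∧ (1 : HH).imJ = 0 ∧ (1 : HH).imK = 0 :=
  ⟨rfl, rfl, rfl, rfl⟩

lemma exists_joins {x y : HH} (hx : ‖x‖ = 1) (hy : ‖y‖ = 1) : ∃ c, Joins c x y := by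
  obtain ⟨o1, o2, o3, o4⟩ := one_parts
  have hxx : x * star x = 1 := by
    rw [Quaternion.self_mul_star, Quaternion.normSq_eq_norm_mul_self, hx]; simp
  set q : HH := star x * y with hq
  have hxq : x * q = y := by rw [hq, ← mul_assoc, hxx, one_mul]
  have hnq : ‖q‖ = 1 := by rw [hq, norm_mul, norm_star, hx, hy, mul_one]
  have hq2 : q.re ^ 2 + (q.imI ^ 2 + q.imJ ^ 2 + q.imK ^ 2) = 1 := by
    have h1 : Quaternion.normSq q = 1 := by
      rw [Quaternion.normSq_eq_norm_mul_self, hnq]; norm_num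
    rw [Quaternion.normSq_def'] at h1
    linarith
  -- the direction
  obtain ⟨n, s, hn0, hn1, hs0, hqn⟩ : ∃ (n : HH) (s : ℝ), n.re = 0 ∧
      n.imI ^ 2 + n.imJ ^ 2 + n.imK ^ 2 = 1 ∧ 0 ≤ s ∧ q = (q.re : HH) + s • n := by
    set s := Real.sqrt (q.imI ^ 2 + q.imJ ^ 2 + q.imK ^ 2) with hs
    by_cases h : s = 0
    · refine ⟨⟨0, 1, 0, 0⟩, 0, rfl, by norm_num, le_rfl, ?_⟩
      rw [hs, Real.sqrt_eq_zero (by positivity)] at h
      have h1 : q.imI = 0 := by nlinarith [sq_nonneg q.imI, sq_nonneg q.imJ, sq_nonneg q.imK]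
      have h2 : q.imJ = 0 := by nlinarith [sq_nonneg q.imI, sq_nonneg q.imJ, sq_nonneg q.imK]
      have h3 : q.imK = 0 := by nlinarith [sq_nonneg q.imI, sq_nonneg q.imJ, sq_nonneg q.imK]
      ext <;> simp [h1, h2, h3]
    · have hs2 : s ^ 2 = q.imI ^ 2 + q.imJ ^ 2 + q.imK ^ 2 := Real.sq_sqrt (by positivity)
      refine ⟨⟨0, q.imI / s, q.imJ / s, q.imK / s⟩, s, rfl, ?_, Real.sqrt_nonneg _, ?_⟩
      · simp only [div_pow]
        rw [← add_div, ← add_div, ← hs2, div_self (pow_ne_zero 2 h)]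
      · ext <;> simp <;> field_simp
  have hs1 : q.re ^ 2 + s ^ 2 = 1 := by
    have h1 : q.imI = s * n.imI := by
      have := congrArg (fun z : HH => z.imI) hqn; simpa using this
    have h2 : q.imJ = s * n.imJ := by
      have := congrArg (fun z : HH => z.imJ) hqn; simpa using this
    have h3 : q.imK = s * n.imK := by
      have := congrArg (fun z : HH => z.imK) hqn; simpa using this
    rw [h1, h2, h3] at hq2
    have : (s * n.imI) ^ 2 + (s * n.imJ) ^ 2 + (s * n.imK) ^ 2 = s ^ 2 := by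
      have : (s * n.imI) ^ 2 + (s * n.imJ) ^ 2 + (s * n.imK) ^ 2
          = s ^ 2 * (n.imI ^ 2 + n.imJ ^ 2 + n.imK ^ 2) := by ring
      rw [this, hn1, mul_one]
    linarith
  set θ := Real.arccos q.re with hθ
  have hcos : Real.cos θ = q.re := Real.cos_arccos (by nlinarith) (by nlinarith)
  have hsin : Real.sin θ = s := by
    rw [hθ, Real.sin_arccos]
    have : 1 - q.re ^ 2 = s ^ 2 := by linarith
    rw [this, Real.sqrt_sq hs0]
  set c : ℝ → HH := fun t => x * ((Real.cos (θ * t) : ℝ) • (1 : HH) + Real.sin (θ * t) • n) with hc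
  have hnn : ‖n‖ = 1 := by
    have h1 : Quaternion.normSq n = 1 := by
      rw [Quaternion.normSq_def', hn0]; linarith
    rw [Quaternion.normSq_eq_norm_mul_self] at h1
    nlinarith [norm_nonneg n]
  refine ⟨c, ?_, ?_, ?_, ?_⟩
  · have hd : ∀ t, HasDerivAt c (x * ((-(Real.sin (θ * t)) * θ : ℝ) • (1 : HH)
        + (Real.cos (θ * t) * θ : ℝ) • n)) t := by
      intro t
      have h1 : HasDerivAt (fun t => θ * t) θ t := by
        simpa using (hasDerivAt_id t).const_mul θ
      have h2 : HasDerivAt (fun t => Real.cos (θ * t)) (-(Real.sin (θ * t)) * θ) t := h1.cos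
      have h3 : HasDerivAt (fun t => Real.sin (θ * t)) (Real.cos (θ * t) * θ) t := h1.sin
      exact ((h2.smul_const (1 : HH)).add (h3.smul_const n)).const_mul x
    refine ⟨Real.toNNReal (2 * |θ|), ?_⟩
    apply lipschitzWith_of_nnnorm_deriv_le
    · exact fun t => (hd t).differentiableAt
    · intro t
      rw [(hd t).deriv, ← NNReal.coe_le_coe, coe_nnnorm, Real.coe_toNNReal _ (by positivity),
        norm_mul, hx, one_mul]
      refine (norm_add_le _ _).trans ?_
      rw [norm_smul, norm_smul, norm_one, hnn, mul_one, mul_one, Real.norm_eq_abs,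
        Real.norm_eq_abs, abs_mul, abs_mul, abs_neg]
      have h1 := Real.abs_sin_le_one (θ * t)
      have h2 := Real.abs_cos_le_one (θ * t)
      have h3 := abs_nonneg θ
      nlinarith
  · intro t
    rw [hc]
    simp only
    rw [norm_mul, hx, one_mul]
    have h1 : Quaternion.normSq ((Real.cos (θ * t) : ℝ) • (1 : HH) + Real.sin (θ * t) • n) = 1 := by
      rw [Quaternion.normSq_def']
      simp [hn0, o1, o2, o3, o4]
      have h2 := Real.sin_sq_add_cos_sq (θ * t)
      have h3 : Real.cos (θ * t) ^ 2 + (Real.sin (θ * t) * n.imI) ^ 2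
          + (Real.sin (θ * t) * n.imJ) ^ 2 + (Real.sin (θ * t) * n.imK) ^ 2
          = Real.cos (θ * t) ^ 2
            + Real.sin (θ * t) ^ 2 * (n.imI ^ 2 + n.imJ ^ 2 + n.imK ^ 2) := by ring
      rw [h3, hn1]
      linarith
    rw [Quaternion.normSq_eq_norm_mul_self] at h1
    nlinarith [norm_nonneg ((Real.cos (θ * t) : ℝ) • (1 : HH) + Real.sin (θ * t) • n)]
  · rw [hc]; simp
  · rw [hc]
    simp only
    rw [mul_one, hcos, hsin, ← hxq]
    congr 1
    conv_rhs => rw [hqn]
    congr 1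
    ext <;> simp [o1, o2, o3, o4]

/-! ### The speed is integrable -/

lemma abs_im_le (q : HH) : |q.imI| ≤ ‖q‖ ∧ |q.imJ| ≤ ‖q‖ ∧ |q.imK| ≤ ‖q‖ := by
  have h1 : ‖q‖ ^ 2 = q.re ^ 2 + q.imI ^ 2 + q.imJ ^ 2 + q.imK ^ 2 := by
    rw [sq, ← Quaternion.normSq_eq_norm_mul_self, Quaternion.normSq_def']
  refine ⟨?_, ?_, ?_⟩ <;> apply abs_le_of_sq_le_sq _ (norm_nonneg q) <;>
    nlinarith [sq_nonneg q.re, sq_nonneg q.imI, sq_nonneg q.imJ, sq_nonneg q.imK]

lemma abs_fr_le {x w : HH} (hx : ‖x‖ = 1) (i : Fin 3) : |fr x w i| ≤ ‖w‖ := by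
  have h1 : ‖star x * w‖ = ‖w‖ := by rw [norm_mul, norm_star, hx, one_mul]
  obtain ⟨h2, h3, h4⟩ := abs_im_le (star x * w)
  rw [h1] at h2 h3 h4
  fin_cases i
  · exact h2
  · exact h3
  · exact h4

lemma ne_of_norm {x : HH} (h : ‖x‖ = 1) : x ≠ 0 := by
  intro h0; rw [h0, norm_zero] at h; exact zero_ne_one h

lemma cont_comp {f : HH → ℝ} (hf : Sm f) {c : ℝ → HH} (hc : Continuous c) (hn : ∀ t, ‖c t‖ = 1) :
    Continuous (fun t => f (c t)) := by
  rw [continuous_iff_continuousAt]
  intro t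
  have h1 : ContinuousAt f (c t) := hf.cd.continuousOn.continuousAt
    (isOpen_compl_singleton.mem_nhds (ne_of_norm (hn t)))
  exact ContinuousAt.comp (f := c) h1 hc.continuousAt

lemma speed_integrable {g : MF} (hg : IsMetric g) {c : ℝ → HH} {K : NNReal} (hK : LipschitzWith K c)
    (hn : ∀ t, ‖c t‖ = 1) : IntervalIntegrable (speed g c) volume 0 1 := by
  have hcc : Continuous c := hK.continuous
  have hgc : ∀ i j, Continuous (fun t => g (c t) i j) := fun i j => cont_comp (hg.sm i j) hcc hn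
  have hgb : ∀ i j, ∃ M : ℝ, 0 ≤ M ∧ ∀ t ∈ Set.Icc (0:ℝ) 1, |g (c t) i j| ≤ M := by
    intro i j
    obtain ⟨M, hM⟩ := isCompact_Icc.exists_bound_of_continuousOn (s := Set.Icc (0:ℝ) 1)
      (hgc i j).continuousOn
    exact ⟨|M|, abs_nonneg _, fun t ht => (Real.norm_eq_abs _ ▸ hM t ht).trans (le_abs_self _)⟩
  choose M hM0 hM using hgb
  have hdm : Measurable (deriv c) := measurable_deriv c
  have hcm : Measurable c := hcc.measurable
  have hstar : Measurable (fun t => star (c t) * deriv c t) := by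
    have h1 : Continuous (fun p : HH × HH => star p.1 * p.2) := by fun_prop
    exact h1.measurable.comp (hcm.prodMk hdm)
  have hfr : ∀ i, Measurable (fun t => fr (c t) (deriv c t) i) := by
    intro i
    fin_cases i
    · exact Quaternion.continuous_imI.measurable.comp hstar
    · exact Quaternion.continuous_imJ.measurable.comp hstar
    · exact Quaternion.continuous_imK.measurable.comp hstar
  have hsm : Measurable (speed g c) := by
    unfold speed ip
    apply Measurable.sqrt
    refine Finset.measurable_sum _ fun i _ => Finset.measurable_sum _ fun j _ => ?_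
    exact (((hgc i j).measurable.mul (hfr i)).mul (hfr j))
  have hdb : ∀ t i, |fr (c t) (deriv c t) i| ≤ K := fun t i =>
    (abs_fr_le (hn t) i).trans (norm_deriv_le_of_lipschitz hK)
  set B : ℝ := ∑ i, ∑ j, M i j * K * K with hB
  have hbd : ∀ t ∈ Set.Icc (0:ℝ) 1, ‖speed g c t‖ ≤ Real.sqrt B := by
    intro t ht
    unfold speed
    rw [Real.norm_eq_abs, abs_of_nonneg (Real.sqrt_nonneg _)]
    apply Real.sqrt_le_sqrt
    refine (le_abs_self _).trans ?_
    unfold ip
    refine (Finset.abs_sum_le_sum_abs _ _).trans (sum_le_sum fun i _ => ?_)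
    refine (Finset.abs_sum_le_sum_abs _ _).trans (sum_le_sum fun j _ => ?_)
    rw [abs_mul, abs_mul]
    apply mul_le_mul _ (hdb t j) (abs_nonneg _) (mul_nonneg (hM0 i j) K.2)
    exact mul_le_mul (hM i j t ht) (hdb t i) (abs_nonneg _) (hM0 i j)
  rw [intervalIntegrable_iff_integrableOn_Ioc_of_le zero_le_one]
  apply Measure.integrableOn_of_bounded (M := Real.sqrt B)
  · simp
  · exact hsm.aestronglyMeasurable
  · rw [ae_restrict_iff' measurableSet_Ioc]
    exact Filter.Eventually.of_forall fun t ht => hbd t ⟨ht.1.le, ht.2⟩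

/-! ### The main inequality along a curve -/

lemma lip_curve (h6 : Goal_C6) (h7 : Goal_C7) {g : MF} {u : HH → ℝ} {L : ℝ} (hg : IsMetric g)
    (hu : Sm u) (hL : 0 ≤ L) (hgg : ∀ x, x ≠ 0 → ggC g u u x ≤ L ^ 2) {x y : HH} {c : ℝ → HH}
    (hc : Joins c x y) : |u x - u y| ≤ L * glen g c := by
  obtain ⟨⟨K, hK⟩, hn, h0, h1⟩ := hc
  have hcc : Continuous c := hK.continuous
  set φ : ℝ → ℝ := fun t => u (c t) with hφ
  have hloc : LocallyLipschitzOn (Set.uIcc (0:ℝ) 1) φ := by
    intro t _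
    have hne : c t ≠ 0 := ne_of_norm (hn t)
    have hcd : ContDiffAt ℝ 1 u (c t) :=
      (hu.cd.contDiffAt (isOpen_compl_singleton.mem_nhds hne)).of_le (by
        exact_mod_cast (le_top : ((1 : ℕ∞)) ≤ ⊤))
    obtain ⟨K', s, hs, hls⟩ := hcd.exists_lipschitzOnWith
    refine ⟨K' * K, c ⁻¹' s, mem_nhdsWithin_of_mem_nhds (hcc.continuousAt.preimage_mem_nhds hs), ?_⟩
    exact hls.comp (hK.lipschitzOnWith) (Set.mapsTo_preimage c s)
  obtain ⟨K', hK'⟩ := hloc.exists_lipschitzOnWith_of_compact isCompact_uIcc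
  have hac : AbsolutelyContinuousOnInterval φ 0 1 := hK'.absolutelyContinuousOnInterval
  have hint := hac.integral_deriv_eq_sub
  have hφ01 : φ 1 - φ 0 = u y - u x := by rw [hφ]; simp only [h0, h1]
  rw [hφ01] at hint
  have hae : ∀ᵐ t : ℝ, |deriv φ t| ≤ L * speed g c t := by
    filter_upwards [hK.ae_differentiableAt_real] with t ht
    have h2 := h7.1 u c (deriv c t) t hu (hn t) ht.hasDerivAt
    have h3 : deriv φ t = ∑ i, fr (c t) (deriv c t) i * E i u (c t) := h2.deriv
    rw [h3]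
    have h4 := pair_cs h6 hg (c t) (fun i => E i u (c t)) (fr (c t) (deriv c t))
    have h5 := hgg (c t) (ne_of_norm (hn t))
    unfold ggC at h5
    have h6' := ip_nonneg hg (c t) (fr (c t) (deriv c t))
    have hsp : speed g c t ^ 2 = ip g (c t) (fr (c t) (deriv c t)) (fr (c t) (deriv c t)) :=
      Real.sq_sqrt h6'
    apply abs_le_of_sq_le_sq _ (mul_nonneg hL (Real.sqrt_nonneg _))
    rw [mul_pow]
    change _ ≤ L ^ 2 * speed g c t ^ 2
    rw [hsp]
    exact h4.trans (mul_le_mul_of_nonneg_right h5 h6')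
  have hsi := speed_integrable hg hK hn
  calc |u x - u y| = |∫ t in (0:ℝ)..1, deriv φ t| := by rw [hint, abs_sub_comm]
    _ ≤ ∫ t in (0:ℝ)..1, |deriv φ t| := intervalIntegral.abs_integral_le_integral_abs zero_le_one
    _ ≤ ∫ t in (0:ℝ)..1, L * speed g c t := by
        apply intervalIntegral.integral_mono_ae zero_le_one hac.intervalIntegrable_deriv.abs
          (hsi.const_mul L)
        exact hae
    _ = L * glen g c := by rw [intervalIntegral.integral_const_mul, glen]

theorem lip (h6 : Goal_C6) (h7 : Goal_C7) : LipStmt := by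
  intro g u L hg hu hL hgg x y hx hy
  obtain ⟨c₀, hc₀⟩ := exists_joins hx hy
  have hne : ({r | ∃ c, Joins c x y ∧ r = glen g c} : Set ℝ).Nonempty := ⟨_, c₀, hc₀, rfl⟩
  rcases hL.eq_or_lt with h | h
  · have h1 := lip_curve h6 h7 hg hu hL hgg hc₀
    rw [← h, zero_mul] at h1
    rw [← h, zero_mul]
    exact h1
  · unfold gdist
    rw [← div_le_iff₀' h]
    apply le_csInf hne
    rintro r ⟨c, hc, rfl⟩
    rw [div_le_iff₀' h]
    exact lip_curve h6 h7 hg hu hL hgg hc

end Pool.Agent.Helper55.RF
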